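import Pool.Agent.H33.SMS.Targets

/-!
Rows CNT and ALM of the board sms_modules: counting bad integers.
-/

set_option autoImplicit false

namespace Pool.Agent.H50.SMS

open Pool.Agent.H33.SMS

open Classical in
/-- Multiples of `q` after a shift. -/
theorem card_shift (q N j : ℕ) (hq : 0 < q) :
    ((Finset.Icc 1 N).filter (fun n => j < n ∧ q ∣ n - j)).card ≤ N / q := by
  have h : ((Finset.Icc 1 N).filter (fun n => j < n ∧ q ∣ n - j)).card ≤
      (Finset.Icc 1 (N / q)).card := by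
    refine Finset.card_le_card_of_injOn (fun n => (n - j) / q) ?_ ?_
    · intro n hn
      rw [Finset.mem_coe, Finset.mem_filter, Finset.mem_Icc] at hn
      obtain ⟨⟨h1, h2⟩, h3, h4⟩ := hn
      rw [Finset.mem_coe, Finset.mem_Icc]
      constructor
      · exact (Nat.one_le_div_iff hq).2 (Nat.le_of_dvd (by omega) h4)
      · exact Nat.div_le_div_right (by omega)
    · intro n hn m hm hnm
      rw [Finset.mem_coe, Finset.mem_filter] at hn hm
      simp only [] at hnm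
      have h1 := Nat.div_mul_cancel hn.2.2
      have h2 := Nat.div_mul_cancel hm.2.2
      rw [hnm] at h1
      have h3 : n - j = m - j := h1.symm.trans h2
      have h4 := hn.2.1
      have h5 := hm.2.1
      omega
  rwa [Nat.card_Icc, Nat.add_sub_cancel] at h

theorem geo (x : ℝ) (hx : 1 < x) (J : ℕ) :
    ∑ j ∈ Finset.Icc 1 J, 1 / x ^ (j + 1) = 1 / (x * (x - 1)) * (1 - 1 / x ^ J) := by
  induction J with
  | zero => simp
  | succ J ih =>
    rw [Finset.sum_Icc_succ_top (by omega), ih]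
    have h1 : x ≠ 0 := by linarith
    have h2 : x - 1 ≠ 0 := by linarith
    field_simp
    ring

theorem pf_CNT (h : T_BAD) : T_CNT := by
  intro p N hp
  classical
  have hp2 : (2 : ℝ) ≤ (p : ℝ) := by exact_mod_cast hp.two_le
  have hsub : (Finset.Icc 1 N).filter (fun n => p ∣ n ∧ Bad p n) ⊆
      (Finset.Icc 1 N).biUnion (fun j => (Finset.Icc 1 N).filter
        (fun n => p * j < n ∧ p ^ (j + 1) ∣ n - p * j)) := by
    intro n hn
    rw [Finset.mem_filter] at hn
    obtain ⟨hn1, hn2, hn3⟩ := hn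
    obtain ⟨j, hj1, hj2, hj3⟩ := h p n hp hn2 hn3
    rw [Finset.mem_Icc] at hn1
    rw [Finset.mem_biUnion]
    refine ⟨j, Finset.mem_Icc.2 ⟨hj1, ?_⟩, ?_⟩
    · have : j ≤ p * j := Nat.le_mul_of_pos_left j hp.pos
      omega
    · rw [Finset.mem_filter, Finset.mem_Icc]
      exact ⟨hn1, hj2, hj3⟩
  have h1 := (Finset.card_le_card hsub).trans Finset.card_biUnion_le
  have h2 : ((((Finset.Icc 1 N).filter (fun n => p ∣ n ∧ Bad p n)).card : ℕ) : ℝ) ≤
      ∑ j ∈ Finset.Icc 1 N, (N : ℝ) * (1 / (p : ℝ) ^ (j + 1)) := by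
    calc ((((Finset.Icc 1 N).filter (fun n => p ∣ n ∧ Bad p n)).card : ℕ) : ℝ)
        ≤ ((∑ j ∈ Finset.Icc 1 N, ((Finset.Icc 1 N).filter
        (fun n => p * j < n ∧ p ^ (j + 1) ∣ n - p * j)).card : ℕ) : ℝ) := by exact_mod_cast h1
      _ = ∑ j ∈ Finset.Icc 1 N, ((((Finset.Icc 1 N).filter
        (fun n => p * j < n ∧ p ^ (j + 1) ∣ n - p * j)).card : ℕ) : ℝ) := by push_cast; rfl
      _ ≤ ∑ j ∈ Finset.Icc 1 N, (N : ℝ) * (1 / (p : ℝ) ^ (j + 1)) := by
        refine Finset.sum_le_sum fun j _ => ?_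
        have h3 := card_shift (p ^ (j + 1)) N (p * j) (pow_pos hp.pos _)
        have h4 : ((N / p ^ (j + 1) : ℕ) : ℝ) ≤ (N : ℝ) / ((p ^ (j + 1) : ℕ) : ℝ) :=
          Nat.cast_div_le
        have h5 : ((((Finset.Icc 1 N).filter
          (fun n => p * j < n ∧ p ^ (j + 1) ∣ n - p * j)).card : ℕ) : ℝ) ≤
          ((N / p ^ (j + 1) : ℕ) : ℝ) := by exact_mod_cast h3
        refine h5.trans (h4.trans (le_of_eq ?_))
        push_cast
        ring
  refine h2.trans ?_
  rw [← Finset.mul_sum, geo p (by linarith)]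
  refine mul_le_mul_of_nonneg_left ?_ (Nat.cast_nonneg N)
  have h6 : (0 : ℝ) ≤ 1 / ((p : ℝ) * (p - 1)) := by
    have : (0 : ℝ) ≤ (p : ℝ) - 1 := by linarith
    positivity
  have h7 : (0 : ℝ) ≤ 1 / (p : ℝ) ^ N := by positivity
  nlinarith

theorem pf_ALM (hM : T_MUL) (hN : T_CNT) (hT : T_TL) : T_ALM := by
  intro ε hε
  classical
  obtain ⟨P, hP1, hP2⟩ : ∃ P : ℕ, 1 ≤ P ∧ 2 / (P : ℝ) ≤ ε / 2 := by
    obtain ⟨P, hP⟩ := exists_nat_gt (4 / ε)
    have h0 : (0 : ℝ) < (P : ℝ) := lt_trans (by positivity) hP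
    refine ⟨P, by exact_mod_cast h0, ?_⟩
    rw [div_le_iff₀ h0]
    rw [div_lt_iff₀ hε] at hP
    nlinarith
  have hP0 : (0 : ℝ) < (P : ℝ) := by exact_mod_cast hP1
  obtain ⟨A, hA⟩ : ∃ A : ℕ, (P : ℝ) * (1 / 2) ^ A ≤ ε / 2 := by
    obtain ⟨A, hA⟩ := exists_pow_lt_of_lt_one (show (0 : ℝ) < ε / 2 / P by positivity)
      (show (1 / 2 : ℝ) < 1 by norm_num)
    refine ⟨A, ?_⟩
    rw [lt_div_iff₀ hP0] at hA
    linarith
  refine ⟨P ^ (A * P), ?_⟩
  intro N
  set S1 : Finset ℕ := ((Finset.Ioc P N).filter Nat.Prime).biUnion (fun p =>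
    (Finset.Icc 1 N).filter (fun n => 0 < n ∧ p ^ 2 ∣ n - 0) ∪
    (Finset.Icc 1 N).filter (fun n => p ∣ n ∧ Bad p n)) with hS1
  set S2 : Finset ℕ := ((Finset.Icc 1 P).filter Nat.Prime).biUnion (fun p =>
    (Finset.Icc 1 N).filter (fun n => 0 < n ∧ p ^ A ∣ n - 0)) with hS2
  have hsub : (Finset.Icc 1 N).filter (fun n =>
      P ^ (A * P) < ((Finset.Ico 1 n).filter (fun s => ¬ Det n s)).card) ⊆ S1 ∪ S2 := by
    intro n hn
    rw [Finset.mem_filter] at hn
    obtain ⟨hn1, hn2⟩ := hn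
    have hn3 := Finset.mem_Icc.1 hn1
    rw [Finset.mem_union]
    by_contra hcon
    push Not at hcon
    obtain ⟨hc1, hc2⟩ := hcon
    refine absurd (hM P A n hn3.1 ?_ ?_) (not_le.2 ?_)
    · intro p hp hPp hpn
      have hpN : p ≤ N := (Nat.le_of_dvd (by omega) hpn).trans hn3.2
      have hmem : p ∈ (Finset.Ioc P N).filter Nat.Prime :=
        Finset.mem_filter.2 ⟨Finset.mem_Ioc.2 ⟨hPp, hpN⟩, hp⟩
      constructor
      · intro hd
        apply hc1
        rw [hS1, Finset.mem_biUnion]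
        refine ⟨p, hmem, ?_⟩
        rw [Finset.mem_union]
        left
        rw [Finset.mem_filter]
        exact ⟨hn1, by omega, hd⟩
      · intro hd
        apply hc1
        rw [hS1, Finset.mem_biUnion]
        refine ⟨p, hmem, ?_⟩
        rw [Finset.mem_union]
        right
        rw [Finset.mem_filter]
        exact ⟨hn1, hpn, hd⟩
    · intro p hp hpP hd
      apply hc2
      rw [hS2, Finset.mem_biUnion]
      refine ⟨p, Finset.mem_filter.2 ⟨Finset.mem_Icc.2 ⟨hp.one_le, hpP⟩, hp⟩, ?_⟩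
      rw [Finset.mem_filter]
      exact ⟨hn1, by omega, hd⟩
    · exact hn2
  have hN0 : (0 : ℝ) ≤ (N : ℝ) := Nat.cast_nonneg N
  -- the first part
  have c1 : (S1.card : ℝ) ≤ (N : ℝ) * (2 / (P : ℝ)) := by
    have d1 : S1.card ≤ ∑ p ∈ (Finset.Ioc P N).filter Nat.Prime,
        (((Finset.Icc 1 N).filter (fun n => 0 < n ∧ p ^ 2 ∣ n - 0)).card +
        ((Finset.Icc 1 N).filter (fun n => p ∣ n ∧ Bad p n)).card) := by
      rw [hS1]
      refine Finset.card_biUnion_le.trans (Finset.sum_le_sum fun p _ => Finset.card_union_le _ _)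
    have d2 : (S1.card : ℝ) ≤ ∑ p ∈ (Finset.Ioc P N).filter Nat.Prime,
        (N : ℝ) * (1 / (p : ℝ) ^ 2 + 1 / ((p : ℝ) * (p - 1))) := by
      calc (S1.card : ℝ) ≤ ((∑ p ∈ (Finset.Ioc P N).filter Nat.Prime,
        (((Finset.Icc 1 N).filter (fun n => 0 < n ∧ p ^ 2 ∣ n - 0)).card +
        ((Finset.Icc 1 N).filter (fun n => p ∣ n ∧ Bad p n)).card) : ℕ) : ℝ) := by
            exact_mod_cast d1
        _ = ∑ p ∈ (Finset.Ioc P N).filter Nat.Prime,
          (((((Finset.Icc 1 N).filter (fun n => 0 < n ∧ p ^ 2 ∣ n - 0)).card : ℕ) : ℝ) +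
          ((((Finset.Icc 1 N).filter (fun n => p ∣ n ∧ Bad p n)).card : ℕ) : ℝ)) := by
            push_cast; rfl
        _ ≤ _ := by
          refine Finset.sum_le_sum fun p hp => ?_
          have hpp := (Finset.mem_filter.1 hp).2
          rw [mul_add]
          refine add_le_add ?_ (hN p N hpp)
          have h3 := card_shift (p ^ 2) N 0 (pow_pos hpp.pos _)
          have h4 : ((N / p ^ 2 : ℕ) : ℝ) ≤ (N : ℝ) / ((p ^ 2 : ℕ) : ℝ) := Nat.cast_div_le
          have h5 : ((((Finset.Icc 1 N).filter (fun n => 0 < n ∧ p ^ 2 ∣ n - 0)).card : ℕ) : ℝ) ≤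
            ((N / p ^ 2 : ℕ) : ℝ) := by exact_mod_cast h3
          refine h5.trans (h4.trans (le_of_eq ?_))
          push_cast
          ring
    rw [← Finset.mul_sum] at d2
    exact d2.trans (mul_le_mul_of_nonneg_left (hT P N hP1) hN0)
  have c2 : (S2.card : ℝ) ≤ (N : ℝ) * ((P : ℝ) * (1 / 2) ^ A) := by
    have d1 : S2.card ≤ ∑ p ∈ (Finset.Icc 1 P).filter Nat.Prime,
        ((Finset.Icc 1 N).filter (fun n => 0 < n ∧ p ^ A ∣ n - 0)).card := by
      rw [hS2]
      exact Finset.card_biUnion_le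
    have d2 : (S2.card : ℝ) ≤ ∑ p ∈ (Finset.Icc 1 P).filter Nat.Prime,
        (N : ℝ) * (1 / 2) ^ A := by
      calc (S2.card : ℝ) ≤ ((∑ p ∈ (Finset.Icc 1 P).filter Nat.Prime,
        ((Finset.Icc 1 N).filter (fun n => 0 < n ∧ p ^ A ∣ n - 0)).card : ℕ) : ℝ) := by
            exact_mod_cast d1
        _ = ∑ p ∈ (Finset.Icc 1 P).filter Nat.Prime,
          ((((Finset.Icc 1 N).filter (fun n => 0 < n ∧ p ^ A ∣ n - 0)).card : ℕ) : ℝ) := by
            push_cast; rfl
        _ ≤ _ := by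
          refine Finset.sum_le_sum fun p hp => ?_
          have hpp := (Finset.mem_filter.1 hp).2
          have h3 := card_shift (p ^ A) N 0 (pow_pos hpp.pos _)
          have h4 : ((N / p ^ A : ℕ) : ℝ) ≤ (N : ℝ) / ((p ^ A : ℕ) : ℝ) := Nat.cast_div_le
          have h5 : ((((Finset.Icc 1 N).filter (fun n => 0 < n ∧ p ^ A ∣ n - 0)).card : ℕ) : ℝ) ≤
            ((N / p ^ A : ℕ) : ℝ) := by exact_mod_cast h3
          refine h5.trans (h4.trans ?_)
          push_cast
          rw [div_eq_mul_inv, one_div, inv_pow]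
          refine mul_le_mul_of_nonneg_left ?_ hN0
          have h6 : (2 : ℝ) ≤ (p : ℝ) := by exact_mod_cast hpp.two_le
          exact inv_anti₀ (by positivity) (pow_le_pow_left₀ (by norm_num) h6 A)
    have d3 : ((Finset.Icc 1 P).filter Nat.Prime).card ≤ P := by
      refine (Finset.card_filter_le _ _).trans ?_
      rw [Nat.card_Icc, Nat.add_sub_cancel]
    rw [Finset.sum_const, nsmul_eq_mul] at d2
    have d4 : ((((Finset.Icc 1 P).filter Nat.Prime).card : ℕ) : ℝ) ≤ (P : ℝ) := by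
      exact_mod_cast d3
    have d5 : (0 : ℝ) ≤ (N : ℝ) * (1 / 2) ^ A := by positivity
    have d6 := mul_le_mul_of_nonneg_right d4 d5
    linarith
  have h1 : ((((Finset.Icc 1 N).filter (fun n =>
      P ^ (A * P) < ((Finset.Ico 1 n).filter (fun s => ¬ Det n s)).card)).card : ℕ) : ℝ) ≤
      (S1.card : ℝ) + (S2.card : ℝ) := by
    exact_mod_cast (Finset.card_le_card hsub).trans (Finset.card_union_le _ _)
  have h2 := mul_le_mul_of_nonneg_left hP2 hN0
  have h3 := mul_le_mul_of_nonneg_left hA hN0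
  refine h1.trans ?_
  linarith

end Pool.Agent.H50.SMS
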