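import Pool.Agent.H33.SMS.Targets

/-!
Row SUM of the board sms_modules: a sum over the odd primes.
-/

set_option autoImplicit false

namespace Pool.Agent.H50.SMS

open Pool.Agent.H33.SMS

noncomputable def gg (m : ℕ) : ℝ := 1 / (m : ℝ) ^ 2 + 1 / ((m : ℝ) * (m - 1))

theorem gg_nonneg (m : ℕ) : 0 ≤ gg m := by
  unfold gg
  rcases Nat.eq_zero_or_pos m with h | h
  · subst h
    norm_num
  · have h1 : (1 : ℝ) ≤ (m : ℝ) := by exact_mod_cast h
    have h2 : (0 : ℝ) ≤ (m : ℝ) - 1 := by linarith
    positivity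

theorem tail_sum (T : ℕ) :
    ∑ t ∈ Finset.range T, gg (2 * t + 33) ≤ 1 / 31 - 1 / (2 * (T : ℝ) + 31) := by
  induction T with
  | zero => norm_num
  | succ T ih =>
    rw [Finset.sum_range_succ]
    have hT : (0 : ℝ) ≤ (T : ℝ) := Nat.cast_nonneg T
    have h1 : gg (2 * T + 33) ≤ 1 / (2 * (T : ℝ) + 31) - 1 / (2 * (T : ℝ) + 33) := by
      unfold gg
      push_cast
      set m : ℝ := 2 * (T : ℝ) + 33 with hm
      have e1 : 2 * (T : ℝ) + 31 = m - 2 := by rw [hm]; ring
      have hm33 : 33 ≤ m := by rw [hm]; linarith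
      rw [e1]
      have h2 : 1 / (m - 2) - 1 / m = 2 / (m * (m - 2)) := by
        have : m - 2 ≠ 0 := by linarith
        have : m ≠ 0 := by linarith
        field_simp
        ring
      have h3 : 1 / m ^ 2 + 1 / (m * (m - 1)) = (2 * m - 1) / (m ^ 2 * (m - 1)) := by
        have : m - 1 ≠ 0 := by linarith
        have : m ≠ 0 := by linarith
        field_simp
        ring
      rw [h2, h3, div_le_div_iff₀ (by nlinarith [sq_nonneg m]) (by nlinarith)]
      have h4 : (2 * m - 1) * (m * (m - 2)) = m * ((2 * m - 1) * (m - 2)) := by ring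
      have h5 : 2 * (m ^ 2 * (m - 1)) = m * (2 * m * (m - 1)) := by ring
      rw [h4, h5]
      exact mul_le_mul_of_nonneg_left (by nlinarith) (by linarith)
    push_cast
    have e2 : 2 * ((T : ℝ) + 1) + 31 = 2 * (T : ℝ) + 33 := by ring
    rw [e2]
    linarith

theorem pf_SUM : T_SUM := by
  intro N
  classical
  have h4 := tail_sum N
  have h5 : (0 : ℝ) ≤ 1 / (2 * (N : ℝ) + 31) := by
    have : (0 : ℝ) ≤ (N : ℝ) := Nat.cast_nonneg N
    positivity
  have h8 : (463 : ℝ) / 1000 + 1 / 31 ≤ 4955 / 10000 := by norm_num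
  set S : Finset ℕ := {3, 5, 7, 11, 13, 17, 19, 23, 29, 31} with hS
  set I : Finset ℕ := (Finset.range N).image (fun t => 2 * t + 33) with hI
  have hsub : (Finset.Icc 3 N).filter Nat.Prime ⊆ S ∪ I := by
    intro p hp
    rw [Finset.mem_filter, Finset.mem_Icc] at hp
    obtain ⟨⟨h3, hN⟩, hp⟩ := hp
    rw [Finset.mem_union]
    by_cases h : p ≤ 32
    · left
      rw [hS]
      clear_value S I
      interval_cases p <;> first | decide | (exfalso; revert hp; norm_num)
    · right
      rw [hI, Finset.mem_image]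
      have hodd : p % 2 = 1 := by
        rcases hp.eq_two_or_odd with h2 | h2
        · omega
        · exact h2
      exact ⟨(p - 33) / 2, Finset.mem_range.2 (by omega), by omega⟩
  have hdis : Disjoint S I := by
    rw [Finset.disjoint_left]
    intro p h1 h2
    rw [hI, Finset.mem_image] at h2
    obtain ⟨t, -, rfl⟩ := h2
    rw [hS] at h1
    simp only [Finset.mem_insert, Finset.mem_singleton] at h1
    omega
  have h1 : ∑ p ∈ (Finset.Icc 3 N).filter Nat.Prime, gg p ≤ ∑ p ∈ S ∪ I, gg p :=
    Finset.sum_le_sum_of_subset_of_nonneg hsub (fun i _ _ => gg_nonneg i)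
  have h2 : ∑ p ∈ I, gg p = ∑ t ∈ Finset.range N, gg (2 * t + 33) := by
    rw [hI, Finset.sum_image]
    intro a _ b _ hab
    simp only [] at hab
    omega
  have h3 : ∑ p ∈ S, gg p ≤ 463 / 1000 := by
    rw [hS]
    rw [Finset.sum_insert (by decide), Finset.sum_insert (by decide),
      Finset.sum_insert (by decide), Finset.sum_insert (by decide),
      Finset.sum_insert (by decide), Finset.sum_insert (by decide),
      Finset.sum_insert (by decide), Finset.sum_insert (by decide),
      Finset.sum_insert (by decide), Finset.sum_singleton]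
    unfold gg
    norm_num
  rw [Finset.sum_union hdis, h2] at h1
  have h6 : ∑ p ∈ (Finset.Icc 3 N).filter Nat.Prime,
      (1 / (p : ℝ) ^ 2 + 1 / ((p : ℝ) * (p - 1))) ≤ 4955 / 10000 := by
    change ∑ p ∈ (Finset.Icc 3 N).filter Nat.Prime, gg p ≤ 4955 / 10000
    exact (h1.trans (add_le_add h3 h4)).trans (by linarith)
  exact h6

end Pool.Agent.H50.SMS
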