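import Pool.Agent.H33.SMS.Targets

/-!
Row BIG of the board sms_modules: no zeros for large `k`.
-/

set_option autoImplicit false

namespace Pool.Agent.H50.SMS

open Pool.Agent.H33.SMS

theorem val_le (p m : ℕ) : padicValNat p m ≤ m :=
  (padicValNat_le_nat_log m).trans (Nat.log_le_self p m)

/-- logarithms of two positive numbers which are relatively close -/
theorem log_close (a b δ : ℝ) (ha : 0 < a) (hb : 0 < b) (hδ : δ ≤ 1 / 2)
    (h : |b - a| ≤ δ * b) : |Real.log a - Real.log b| ≤ 2 * δ := by
  obtain ⟨h1, h2⟩ := abs_le.1 h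
  have h0 : 0 ≤ δ * b := (abs_nonneg _).trans h
  have hδ0 : 0 ≤ δ := by
    by_contra hn
    push Not at hn
    nlinarith
  have hab : b ≤ 2 * a := by nlinarith
  have e1 : Real.log a - Real.log b ≤ 2 * δ := by
    rw [← Real.log_div ha.ne' hb.ne']
    have h3 := Real.log_le_sub_one_of_pos (div_pos ha hb)
    have h4 : a / b - 1 ≤ δ := by
      rw [sub_le_iff_le_add, div_le_iff₀ hb]
      nlinarith
    linarith
  have e2 : Real.log b - Real.log a ≤ 2 * δ := by
    rw [← Real.log_div hb.ne' ha.ne']
    have h3 := Real.log_le_sub_one_of_pos (div_pos hb ha)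
    have h4 : b / a - 1 ≤ 2 * δ := by
      rw [sub_le_iff_le_add, div_le_iff₀ ha]
      nlinarith
    linarith
  rw [abs_le]
  constructor <;> linarith

theorem pf_BIG (hL : T_LOC) (hD : T_DIV) (hB : T_BKR) (hF : T_LGF) (hE : T_EXP) (hX : T_EXA) :
    T_BIG := by
  intro s hs
  obtain ⟨K1, θ, C, hθ0, hθ1, hC, hloc⟩ := hL s (by omega)
  obtain ⟨D, hD0, hbk⟩ := hB s
  set c : ℕ := (s - 1).factorial + 3 * s with hc
  have hc1 : (0 : ℝ) < (c : ℝ) := by
    have : 0 < c := by omega
    exact_mod_cast this
  obtain ⟨K2, hK2⟩ := hE c C D θ hc1 hC hD0 hθ0 hθ1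
  obtain ⟨K3, hK3⟩ := hX s hs
  refine ⟨K1 + K2 + K3 + s + 1, ?_⟩
  intro n k hk hsn hG
  obtain ⟨i, hi1, his, hi⟩ := hloc n k (by omega) hsn hG
  obtain ⟨hck, hCθ, hlt⟩ := hK2 k (by omega)
  have hks : s < 2 ^ k := lt_of_lt_of_le (by omega : s < k) (Nat.lt_two_pow_self).le
  set a : ℕ := (s - i) * (i + 1) ^ k with ha
  set b : ℕ := n * i ^ k with hb
  have hsi : s - i ≠ 0 := by omega
  have hi0 : i ≠ 0 := by omega
  have hn0 : n ≠ 0 := by omega
  have hapos : 0 < a := by
    have : 0 < s - i := by omega
    positivity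
  have hbpos : 0 < b := by
    have : 0 < n := by omega
    have : 0 < i := by omega
    positivity
  have haR : (0 : ℝ) < (a : ℝ) := by exact_mod_cast hapos
  have hbR : (0 : ℝ) < (b : ℝ) := by exact_mod_cast hbpos
  have hac : (a : ℝ) = ((s : ℝ) - i) * ((i : ℝ) + 1) ^ k := by
    rw [ha]
    push_cast [Nat.cast_sub his.le]
    ring
  have hbc : (b : ℝ) = (n : ℝ) * (i : ℝ) ^ k := by
    rw [hb]; push_cast; ring
  rw [← hac, ← hbc] at hi
  have hlog := log_close a b (C * θ ^ k) haR hbR hCθ hi
  have hdiv := hD n s k (by omega) hG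
  -- prime factors
  have hpf : ∀ p : ℕ, p.Prime → p ∣ a * b → p ≤ s := by
    intro p hp hpd
    rcases (Nat.Prime.dvd_mul hp).1 hpd with h | h
    · rcases (Nat.Prime.dvd_mul hp).1 h with h | h
      · exact (Nat.le_of_dvd (by omega) h).trans (by omega)
      · exact (Nat.le_of_dvd (by omega) (hp.dvd_of_dvd_pow h)).trans (by omega)
    · rcases (Nat.Prime.dvd_mul hp).1 h with h | h
      · rcases (Nat.Prime.dvd_mul hp).1 (h.trans hdiv) with h | h
        · exact ((Nat.Prime.dvd_factorial hp).1 h).trans (by omega)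
        · exact Nat.le_of_dvd (by omega) (hp.dvd_of_dvd_pow h)
      · exact (Nat.le_of_dvd (by omega) (hp.dvd_of_dvd_pow h)).trans (by omega)
  have hsum := hF s a b hapos hbpos hpf
  set e : ℕ → ℤ := fun p => if p ∈ Pr s then ((padicValNat p a : ℤ) - (padicValNat p b : ℤ)) else 0
    with he
  have hsum' : Real.log a - Real.log b = ∑ p ∈ Pr s, (e p : ℝ) * Real.log p := by
    rw [hsum]
    refine Finset.sum_congr rfl fun p hp => ?_
    rw [he]
    simp only [if_pos hp]
  have hbound : ∀ p, |(e p : ℝ)| ≤ (c : ℝ) * k := by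
    intro p
    by_cases hp : p ∈ Pr s
    · have hpp : p.Prime := by
        unfold Pr at hp
        exact (Finset.mem_filter.1 hp).2
      have : Fact p.Prime := ⟨hpp⟩
      have hk1 : 1 ≤ k := by omega
      have v1 : padicValNat p a ≤ s + k * s := by
        rw [ha, padicValNat.mul hsi (pow_ne_zero _ (by omega)), padicValNat.pow]
        have h1 := val_le p (s - i)
        have h2 := val_le p (i + 1)
        have h3 : k * padicValNat p (i + 1) ≤ k * s := Nat.mul_le_mul_left _ (by omega)
        omega
      have v2 : padicValNat p b ≤ (s - 1).factorial + k * s + k * s := by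
        rw [hb, padicValNat.mul hn0 (pow_ne_zero _ hi0), padicValNat.pow]
        have h1 : padicValNat p n ≤ padicValNat p ((s - 1).factorial * s ^ k) := by
          refine (padicValNat_dvd_iff_le ?_).1 ?_
          · exact mul_ne_zero (Nat.factorial_ne_zero _) (pow_ne_zero _ (by omega))
          · exact pow_padicValNat_dvd.trans hdiv
        rw [padicValNat.mul (Nat.factorial_ne_zero _) (pow_ne_zero _ (by omega)),
          padicValNat.pow] at h1
        have h2 := val_le p ((s - 1).factorial)
        have h3 : k * padicValNat p s ≤ k * s := Nat.mul_le_mul_left _ (val_le p s)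
        have h4 : k * padicValNat p i ≤ k * s :=
          Nat.mul_le_mul_left _ ((val_le p i).trans his.le)
        omega
      have hcc : (s - 1).factorial + s + 2 * (k * s) ≤ c * k := by
        rw [hc, add_mul]
        have h1 : (s - 1).factorial ≤ (s - 1).factorial * k := Nat.le_mul_of_pos_right _ hk1
        have h2 : s ≤ s * k := Nat.le_mul_of_pos_right _ hk1
        have h3 : k * s = s * k := mul_comm _ _
        have h4 : 3 * s * k = 3 * (s * k) := by ring
        omega
      have hz : |e p| ≤ ((c * k : ℕ) : ℤ) := by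
        have hep : e p = (padicValNat p a : ℤ) - (padicValNat p b : ℤ) := by
          rw [he]
          simp only [if_pos hp]
        rw [hep, abs_le]
        have w1 : (padicValNat p a : ℤ) ≤ ((c * k : ℕ) : ℤ) := by
          have : padicValNat p a ≤ c * k := by omega
          exact_mod_cast this
        have w2 : (padicValNat p b : ℤ) ≤ ((c * k : ℕ) : ℤ) := by
          have : padicValNat p b ≤ c * k := by omega
          exact_mod_cast this
        have w3 : (0 : ℤ) ≤ (padicValNat p a : ℤ) := by positivity
        have w4 : (0 : ℤ) ≤ (padicValNat p b : ℤ) := by positivity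
        constructor <;> linarith
      have : ((|e p| : ℤ) : ℝ) ≤ (((c * k : ℕ) : ℤ) : ℝ) := by exact_mod_cast hz
      push_cast at this
      exact this
    · have hep : e p = 0 := by
        rw [he]
        simp only [if_neg hp]
      rw [hep, Int.cast_zero, abs_zero]
      positivity
  by_cases hex : ∃ p ∈ Pr s, e p ≠ 0
  · have h1 := hbk ((c : ℝ) * k) e hck hbound hex
    rw [← hsum'] at h1
    have h2 : ((c : ℝ) * k) ^ D * |Real.log a - Real.log b| ≤
        ((c : ℝ) * k) ^ D * (2 * C * θ ^ k) := by
      refine mul_le_mul_of_nonneg_left ?_ (by positivity)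
      linarith
    linarith
  · push Not at hex
    have h1 : Real.log a = Real.log b := by
      have : Real.log a - Real.log b = 0 := by
        rw [hsum']
        refine Finset.sum_eq_zero fun p hp => ?_
        rw [hex p hp, Int.cast_zero, zero_mul]
      linarith
    have h2 : (a : ℝ) = b := Real.log_injOn_pos (Set.mem_Ioi.2 haR) (Set.mem_Ioi.2 hbR) h1
    have h3 : a = b := by exact_mod_cast h2
    have h4 : Nat.Coprime (i ^ k) ((i + 1) ^ k) := by
      refine Nat.Coprime.pow k k ?_
      rw [Nat.coprime_self_add_right]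
      exact Nat.coprime_one_right i
    have h5 : i ^ k ∣ (s - i) := by
      have h6 : i ^ k ∣ (s - i) * (i + 1) ^ k := by
        rw [← ha, h3, hb]
        exact Dvd.intro_left n rfl
      exact h4.dvd_of_dvd_mul_right h6
    have h7 : i = 1 := by
      by_contra hne
      have h8 : 2 ^ k ≤ i ^ k := Nat.pow_le_pow_left (by omega) k
      have h9 := Nat.le_of_dvd (by omega) h5
      omega
    have h10 : n = (s - 1) * 2 ^ k := by
      have h11 : (s - i) * (i + 1) ^ k = n * i ^ k := by rw [← ha, ← hb, h3]
      rw [h7, one_pow, mul_one] at h11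
      exact h11.symm
    exact hK3 k (by omega) (h10 ▸ hG)

end Pool.Agent.H50.SMS
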