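import Pool.Agent.H33.SMS.Targets

/-!
Row EXA of the board sms_modules: no zero at `n = (s - 1) 2 ^ k`.
-/

set_option autoImplicit false

namespace Pool.Agent.H50.SMS

open Pool.Agent.H33.SMS

theorem alt (t : ℕ) : ∀ f : ℕ → ℤ, (∀ i ≤ t, 0 ≤ f i) → (∀ i < t, 2 * f (i + 1) ≤ f i) →
    f 0 ≤ 2 * ∑ i ∈ Finset.range (t + 1), (-1) ^ i * f i ∧
      ∑ i ∈ Finset.range (t + 1), (-1) ^ i * f i ≤ f 0 := by
  induction t with
  | zero =>
    intro f h0 _
    have h := h0 0 le_rfl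
    rw [zero_add, Finset.sum_range_one, pow_zero, one_mul]
    constructor
    · linarith
    · exact le_rfl
  | succ t ih =>
    intro f h0 h1
    obtain ⟨h2, h3⟩ := ih (fun i => f (i + 1)) (fun i hi => h0 (i + 1) (by omega))
      (fun i hi => h1 (i + 1) (by omega))
    have h4 : ∑ i ∈ Finset.range (t + 1 + 1), (-1 : ℤ) ^ i * f i =
        f 0 - ∑ i ∈ Finset.range (t + 1), (-1 : ℤ) ^ i * f (i + 1) := by
      rw [Finset.sum_range_succ', pow_zero, one_mul]
      have h5 : ∑ i ∈ Finset.range (t + 1), (-1 : ℤ) ^ (i + 1) * f (i + 1) =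
          -∑ i ∈ Finset.range (t + 1), (-1 : ℤ) ^ i * f (i + 1) := by
        rw [← Finset.sum_neg_distrib]
        refine Finset.sum_congr rfl fun i _ => ?_
        rw [pow_succ]
        ring
      rw [h5]
      ring
    rw [h4]
    have h6 := h1 0 (by omega)
    have h7 := h0 1 (by omega)
    simp only [zero_add] at h2 h3 h6
    constructor
    · linarith
    · linarith

theorem pow32 (k : ℕ) (hk : 2 ≤ k) : 2 * 2 ^ k < 3 ^ k := by
  induction k, hk using Nat.le_induction with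
  | base => norm_num
  | succ k hk ih =>
    rw [pow_succ, pow_succ]
    omega

theorem pf_EXA : T_EXA := by
  intro s hs
  obtain ⟨t, rfl⟩ : ∃ t, s = t + 3 := ⟨s - 3, by omega⟩
  refine ⟨t + 2, ?_⟩
  intro k hk
  have e0 : t + 3 - 1 = t + 2 := rfl
  rw [e0]
  set n : ℕ := (t + 2) * 2 ^ k with hn
  have h2k : t < 2 ^ k := lt_of_lt_of_le (by omega : t < k) (Nat.lt_two_pow_self).le
  have h32 := pow32 k (by omega)
  have hnt : (t + 1) * 2 ^ k + t ≤ n := by
    rw [hn]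
    have : (t + 2) * 2 ^ k = (t + 1) * 2 ^ k + 2 ^ k := by ring
    rw [this]
    omega
  -- the sum
  set f : ℕ → ℤ := fun i => ((i : ℤ) + 3) ^ k * (n.choose (t - i) : ℤ) with hf
  have hG : G n (t + 3) k = (n.choose (t + 2) : ℤ) - 2 ^ k * (n.choose (t + 1) : ℤ) +
      ∑ i ∈ Finset.range (t + 1), (-1) ^ i * f i := by
    unfold G
    rw [Finset.sum_range_succ', Finset.sum_range_succ']
    have h1 : ∑ i ∈ Finset.range (t + 1), (-1 : ℤ) ^ (i + 1 + 1) *
        (((i + 1 + 1 : ℕ) : ℤ) + 1) ^ k * (n.choose (t + 3 - 1 - (i + 1 + 1)) : ℤ) =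
        ∑ i ∈ Finset.range (t + 1), (-1) ^ i * f i := by
      refine Finset.sum_congr rfl fun i _ => ?_
      have h2 : t + 3 - 1 - (i + 1 + 1) = t - i := by omega
      rw [h2, hf]
      push_cast
      rw [pow_succ, pow_succ]
      ring
    rw [h1]
    have h3 : t + 3 - 1 - (0 + 1) = t + 1 := by omega
    have h4 : t + 3 - 1 - 0 = t + 2 := by omega
    rw [h3, h4]
    push_cast
    ring
  have hf0 : ∀ i ≤ t, 0 ≤ f i := fun i _ => by rw [hf]; positivity
  have hf1 : ∀ i < t, 2 * f (i + 1) ≤ f i := by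
    intro i hi
    obtain ⟨j, hj⟩ : ∃ j, t = i + 1 + j := ⟨t - (i + 1), by omega⟩
    have h1 : t - (i + 1) = j := by omega
    have h2 : t - i = j + 1 := by omega
    have h3 := Nat.choose_succ_right_eq n j
    have h4 : 3 ^ k * (i + 4) ^ k ≤ 4 ^ k * (i + 3) ^ k := by
      rw [← mul_pow, ← mul_pow]
      exact Nat.pow_le_pow_left (by omega) k
    have h5 : (t + 1) * 2 ^ k ≤ n - j := by omega
    have h6 : 4 ^ k = 2 ^ k * 2 ^ k := by
      rw [← mul_pow]
      norm_num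
    -- 3^k * (2 (i+4)^k (j+1)) ≤ 3^k * ((i+3)^k (n-j))
    have h7 : 2 * (i + 4) ^ k * (j + 1) ≤ (i + 3) ^ k * (n - j) := by
      have h8 : 3 ^ k * (2 * (i + 4) ^ k * (j + 1)) ≤ 3 ^ k * ((i + 3) ^ k * (n - j)) := by
        calc 3 ^ k * (2 * (i + 4) ^ k * (j + 1)) = (3 ^ k * (i + 4) ^ k) * (2 * (j + 1)) := by ring
          _ ≤ (4 ^ k * (i + 3) ^ k) * (2 * (j + 1)) := Nat.mul_le_mul_right _ h4
          _ = (2 * 2 ^ k) * ((j + 1) * 2 ^ k) * (i + 3) ^ k := by rw [h6]; ring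
          _ ≤ 3 ^ k * ((t + 1) * 2 ^ k) * (i + 3) ^ k := by
              refine Nat.mul_le_mul_right _ (Nat.mul_le_mul h32.le (Nat.mul_le_mul_right _ ?_))
              omega
          _ ≤ 3 ^ k * (n - j) * (i + 3) ^ k :=
              Nat.mul_le_mul_right _ (Nat.mul_le_mul_left _ h5)
          _ = 3 ^ k * ((i + 3) ^ k * (n - j)) := by ring
      exact Nat.le_of_mul_le_mul_left h8 (by positivity)
    have h9 : 2 * ((i + 4) ^ k * n.choose j) ≤ (i + 3) ^ k * n.choose (j + 1) := by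
      have h10 : (2 * ((i + 4) ^ k * n.choose j)) * (j + 1) ≤
          ((i + 3) ^ k * n.choose (j + 1)) * (j + 1) := by
        calc (2 * ((i + 4) ^ k * n.choose j)) * (j + 1)
            = (2 * (i + 4) ^ k * (j + 1)) * n.choose j := by ring
          _ ≤ ((i + 3) ^ k * (n - j)) * n.choose j := Nat.mul_le_mul_right _ h7
          _ = (i + 3) ^ k * (n.choose j * (n - j)) := by ring
          _ = ((i + 3) ^ k * n.choose (j + 1)) * (j + 1) := by rw [← h3]; ring
      exact Nat.le_of_mul_le_mul_right h10 (by omega)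
    rw [hf]
    simp only []
    rw [h1, h2]
    have h11 : ((2 * ((i + 4) ^ k * n.choose j) : ℕ) : ℤ) ≤
        (((i + 3) ^ k * n.choose (j + 1) : ℕ) : ℤ) := by exact_mod_cast h9
    push_cast at h11 ⊢
    have h12 : ((i : ℤ) + 1 + 3) = (i : ℤ) + 4 := by ring
    rw [h12]
    exact h11
  obtain ⟨ha, -⟩ := alt t f hf0 hf1
  have hf00 : f 0 = 3 ^ k * (n.choose t : ℤ) := by
    rw [hf]
    simp
  -- b_1 - b_0
  have c1 := Nat.choose_succ_right_eq n (t + 1)
  have c2 := Nat.choose_succ_right_eq n t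
  have hz1 : (n.choose (t + 2) : ℤ) * ((t : ℤ) + 2) =
      (n.choose (t + 1) : ℤ) * ((n : ℤ) - ((t : ℤ) + 1)) := by
    have h1 : ((n.choose (t + 1 + 1) * (t + 1 + 1) : ℕ) : ℤ) =
      ((n.choose (t + 1) * (n - (t + 1)) : ℕ) : ℤ) := by exact_mod_cast c1
    have h2 : t + 1 ≤ n := by
      have : 1 ≤ 2 ^ k := Nat.one_le_two_pow
      nlinarith
    rw [Nat.cast_mul, Nat.cast_mul, Nat.cast_sub h2] at h1
    push_cast at h1
    have h3 : (t : ℤ) + 1 + 1 = (t : ℤ) + 2 := by ring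
    rw [h3] at h1
    exact h1
  have hz2 : (n.choose (t + 1) : ℤ) * ((t : ℤ) + 1) = (n.choose t : ℤ) * ((n : ℤ) - t) := by
    have h1 : ((n.choose (t + 1) * (t + 1) : ℕ) : ℤ) =
      ((n.choose t * (n - t) : ℕ) : ℤ) := by exact_mod_cast c2
    have h2 : t ≤ n := by omega
    rw [Nat.cast_mul, Nat.cast_mul, Nat.cast_sub h2] at h1
    push_cast at h1
    exact h1
  have hnz : (n : ℤ) = ((t : ℤ) + 2) * 2 ^ k := by rw [hn]; push_cast; ring
  have hb : ((t : ℤ) + 2) * (2 ^ k * (n.choose (t + 1) : ℤ) - (n.choose (t + 2) : ℤ)) ≤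
      ((t : ℤ) + 2) * (2 ^ k * (n.choose t : ℤ)) := by
    have h1 : ((t : ℤ) + 2) * (2 ^ k * (n.choose (t + 1) : ℤ) - (n.choose (t + 2) : ℤ)) =
        (n.choose t : ℤ) * ((n : ℤ) - t) := by
      have : ((t : ℤ) + 2) * (2 ^ k * (n.choose (t + 1) : ℤ) - (n.choose (t + 2) : ℤ)) =
          (n : ℤ) * (n.choose (t + 1) : ℤ) - (n.choose (t + 2) : ℤ) * ((t : ℤ) + 2) := by
        rw [hnz]; ring
      rw [this, hz1, ← hz2]
      ring
    rw [h1]
    have h2 : (0 : ℤ) ≤ (n.choose t : ℤ) := by positivity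
    have h3 : (0 : ℤ) ≤ (t : ℤ) := by positivity
    have h4 : ((t : ℤ) + 2) * (2 ^ k * (n.choose t : ℤ)) = (n.choose t : ℤ) * (n : ℤ) := by
      rw [hnz]; ring
    rw [h4]
    exact mul_le_mul_of_nonneg_left (by linarith) h2
  have hb' : 2 ^ k * (n.choose (t + 1) : ℤ) - (n.choose (t + 2) : ℤ) ≤
      2 ^ k * (n.choose t : ℤ) :=
    le_of_mul_le_mul_left hb (by positivity)
  have hpos : (0 : ℤ) < (n.choose t : ℤ) := by
    have : 0 < n.choose t := Nat.choose_pos (by omega)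
    exact_mod_cast this
  have h32z : (2 : ℤ) * 2 ^ k < 3 ^ k := by exact_mod_cast h32
  have hfin : 0 < G n (t + 3) k := by
    rw [hG]
    rw [hf00] at ha
    have h1 : (2 : ℤ) * 2 ^ k * (n.choose t : ℤ) < 3 ^ k * (n.choose t : ℤ) :=
      mul_lt_mul_of_pos_right h32z hpos
    linarith
  exact hfin.ne'

end Pool.Agent.H50.SMS
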