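import Pool.Agent.H33.SMS.Targets2

/-!
Row EXC of the board sms_modules: the number of exceptional pairs.
-/

set_option autoImplicit false

namespace Pool.Agent.H50.SMS

open Pool.Agent.H33.SMS

theorem pf_EXC (hK : T_KB) (hP : T_PRT) (hC : T_CL) (hS : T_PWS) : T_EXC := by
  obtain ⟨C, hC0, hCs⟩ := hS
  refine ⟨1 + 2 * C ^ 2, by positivity, ?_⟩
  intro N hN
  classical
  have hN1 : (1 : ℝ) ≤ N := by exact_mod_cast hN
  set s : ℝ := (N : ℝ) ^ (1 / 4 : ℝ) with hs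
  have hs1 : 1 ≤ s := Real.one_le_rpow hN1 (by norm_num)
  have hs4 : s ^ 4 = N := by
    rw [hs, ← Real.rpow_natCast, ← Real.rpow_mul (by linarith)]
    norm_num
  have hs7 : s ^ 7 = (N : ℝ) ^ (7 / 4 : ℝ) := by
    rw [hs, ← Real.rpow_natCast, ← Real.rpow_mul (by linarith)]
    norm_num
  set L : ℝ := 1 + Real.log N with hL
  have hL1 : 1 ≤ L := by
    have : 0 ≤ Real.log N := Real.log_natCast_nonneg N
    linarith
  set F : Finset ℕ := (Finset.Icc 1 N).filter Pw with hF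
  set B : Finset ℕ := (Finset.Icc 1 N).filter (fun n => s ^ 2 ≤ (KK n : ℝ)) with hB
  set PP : Finset (ℕ × ℕ) := (F ×ˢ F).filter (fun p => Nat.Coprime p.1 p.2 ∧
    s ^ 2 ≤ (p.1 : ℝ) * p.2 ∧ p.1 * p.2 ≤ N) with hPP
  -- the exceptional n
  have hBsub : B ⊆ PP.biUnion (fun p => (Finset.Icc 1 N).filter (fun n => InA p.1 p.2 n)) := by
    intro n hn
    rw [hB, Finset.mem_filter, Finset.mem_Icc] at hn
    obtain ⟨⟨hn1, hn2⟩, hn3⟩ := hn
    obtain ⟨M₁, M₂, h1, h2, h3, h4, h5, h6⟩ := hP n N (s ^ 2) hn1 hn2 (by nlinarith)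
      (by rw [← pow_add, hs4]) hn3
    rw [Finset.mem_biUnion]
    have hM1 : M₁ ≤ N := (Nat.le_mul_of_pos_right _ h2.1).trans h5
    have hM2 : M₂ ≤ N := (Nat.le_mul_of_pos_left _ h1.1).trans h5
    refine ⟨(M₁, M₂), ?_, Finset.mem_filter.2 ⟨Finset.mem_Icc.2 ⟨hn1, hn2⟩, h6⟩⟩
    rw [hPP, Finset.mem_filter, Finset.mem_product, hF, Finset.mem_filter, Finset.mem_filter,
      Finset.mem_Icc, Finset.mem_Icc]
    exact ⟨⟨⟨⟨h1.1, hM1⟩, h1⟩, ⟨h2.1, hM2⟩, h2⟩, h3, h4, h5⟩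
  have hBcard : (B.card : ℝ) ≤ 2 * s ^ 3 * (C ^ 2 * L ^ 2) := by
    have e1 : (B.card : ℝ) ≤ ∑ p ∈ PP,
        ((((Finset.Icc 1 N).filter (fun n => InA p.1 p.2 n)).card : ℕ) : ℝ) := by
      have := (Finset.card_le_card hBsub).trans Finset.card_biUnion_le
      exact_mod_cast this
    have e2 : ∀ p ∈ PP, ((((Finset.Icc 1 N).filter (fun n => InA p.1 p.2 n)).card : ℕ) : ℝ) ≤
        2 * s ^ 3 * (1 / √(p.1 : ℝ) * (1 / √(p.2 : ℝ))) := by
      intro p hp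
      rw [hPP, Finset.mem_filter, Finset.mem_product, hF, Finset.mem_filter, Finset.mem_filter,
        Finset.mem_Icc, Finset.mem_Icc] at hp
      obtain ⟨⟨⟨⟨h1, -⟩, -⟩, ⟨h2, -⟩, -⟩, h3, h4, h5⟩ := hp
      have h6 := hC p.1 p.2 N h1 h2 h3
      refine h6.trans ?_
      have a1 : (1 : ℝ) ≤ p.1 := by exact_mod_cast h1
      have a2 : (1 : ℝ) ≤ p.2 := by exact_mod_cast h2
      have h7 : (p.1 : ℝ) * p.2 ≤ N := by exact_mod_cast h5
      have hpos : (0 : ℝ) < (p.1 : ℝ) * p.2 := by positivity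
      have h8 : (N : ℝ) / ((p.1 : ℝ) * p.2) + 1 ≤ 2 * N / ((p.1 : ℝ) * p.2) := by
        have : 1 ≤ (N : ℝ) / ((p.1 : ℝ) * p.2) := (one_le_div hpos).2 h7
        have e : 2 * (N : ℝ) / ((p.1 : ℝ) * p.2) = (N : ℝ) / ((p.1 : ℝ) * p.2) +
          (N : ℝ) / ((p.1 : ℝ) * p.2) := by ring
        rw [e]
        linarith
      refine h8.trans ?_
      have b1 : 0 < √(p.1 : ℝ) := Real.sqrt_pos.2 (by linarith)
      have b2 : 0 < √(p.2 : ℝ) := Real.sqrt_pos.2 (by linarith)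
      have c1 := Real.mul_self_sqrt (show (0 : ℝ) ≤ p.1 by linarith)
      have c2 := Real.mul_self_sqrt (show (0 : ℝ) ≤ p.2 by linarith)
      set x := √(p.1 : ℝ) with hx
      set y := √(p.2 : ℝ) with hy
      have h9 : s ≤ x * y := by
        have : s ^ 2 ≤ (x * y) ^ 2 := by
          have : (x * y) ^ 2 = (x * x) * (y * y) := by ring
          rw [this, c1, c2]
          exact h4
        exact le_of_sq_le_sq this (by positivity)
      rw [← c1, ← c2, ← hs4]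
      have h10 : 2 * s ^ 4 / (x * x * (y * y)) = 2 * s ^ 3 * (1 / x * (1 / y)) * (s / (x * y)) := by
        field_simp
      rw [h10]
      refine mul_le_of_le_one_right (by positivity) ?_
      rw [div_le_one (by positivity)]
      exact h9
    have e3 : ∑ p ∈ PP, 2 * s ^ 3 * (1 / √(p.1 : ℝ) * (1 / √(p.2 : ℝ))) ≤
        2 * s ^ 3 * (∑ p ∈ F ×ˢ F, 1 / √(p.1 : ℝ) * (1 / √(p.2 : ℝ))) := by
      rw [← Finset.mul_sum]
      refine mul_le_mul_of_nonneg_left ?_ (by positivity)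
      refine Finset.sum_le_sum_of_subset_of_nonneg (Finset.filter_subset _ _) ?_
      intro p _ _
      positivity
    have e4 : ∑ p ∈ F ×ˢ F, 1 / √(p.1 : ℝ) * (1 / √(p.2 : ℝ)) =
        (∑ M ∈ F, 1 / √(M : ℝ)) * ∑ M ∈ F, 1 / √(M : ℝ) := by
      rw [Finset.sum_mul_sum, Finset.sum_product]
    have e5 : ∑ M ∈ F, 1 / √(M : ℝ) ≤ C * L := hCs N hN
    have e6 : 0 ≤ ∑ M ∈ F, 1 / √(M : ℝ) := Finset.sum_nonneg fun M _ => by positivity
    have e7 : (∑ M ∈ F, 1 / √(M : ℝ)) * ∑ M ∈ F, 1 / √(M : ℝ) ≤ (C * L) * (C * L) :=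
      mul_le_mul e5 e5 e6 (by positivity)
    have e8 := mul_le_mul_of_nonneg_left e7 (show 0 ≤ 2 * s ^ 3 by positivity)
    calc (B.card : ℝ) ≤ _ := e1
      _ ≤ _ := Finset.sum_le_sum e2
      _ ≤ _ := e3
      _ ≤ 2 * s ^ 3 * ((C * L) * (C * L)) := by rw [e4]; exact e8
      _ = 2 * s ^ 3 * (C ^ 2 * L ^ 2) := by ring
  -- the sum
  have hsum : ((∑ n ∈ Finset.Icc 1 N,
      ((Finset.Ico 1 n).filter (fun s => ¬ Det n s)).card : ℕ) : ℝ) ≤
      ∑ n ∈ Finset.Icc 1 N, (s ^ 2 + if n ∈ B then (N : ℝ) else 0) := by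
    rw [Nat.cast_sum]
    refine Finset.sum_le_sum fun n hn => ?_
    have hn' := Finset.mem_Icc.1 hn
    have h1 := hK n hn'.1
    have h2 : ((((Finset.Ico 1 n).filter (fun s => ¬ Det n s)).card : ℕ) : ℝ) ≤ (KK n : ℝ) := by
      exact_mod_cast h1
    by_cases hnB : n ∈ B
    · rw [if_pos hnB]
      have h3 : KK n ≤ N := (Nat.div_le_self _ _).trans hn'.2
      have h4 : (KK n : ℝ) ≤ N := by exact_mod_cast h3
      have h5 : 0 ≤ s ^ 2 := sq_nonneg s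
      linarith
    · rw [if_neg hnB, add_zero]
      have h3 : ¬ s ^ 2 ≤ (KK n : ℝ) := by
        intro h
        exact hnB (Finset.mem_filter.2 ⟨hn, h⟩)
      linarith
  refine hsum.trans ?_
  rw [Finset.sum_add_distrib, Finset.sum_const, Nat.card_Icc, Nat.add_sub_cancel, nsmul_eq_mul]
  have hif : ∑ n ∈ Finset.Icc 1 N, (if n ∈ B then (N : ℝ) else 0) ≤ B.card * N := by
    rw [← Finset.sum_filter, Finset.sum_const, nsmul_eq_mul]
    refine mul_le_mul_of_nonneg_right ?_ (by linarith)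
    have : ((Finset.Icc 1 N).filter (fun n => n ∈ B)).card ≤ B.card :=
      Finset.card_le_card fun x hx => (Finset.mem_filter.1 hx).2
    exact_mod_cast this
  have hfin : (N : ℝ) * s ^ 2 + B.card * N ≤ (1 + 2 * C ^ 2) * s ^ 7 * L ^ 2 := by
    have g1 : (B.card : ℝ) * N ≤ 2 * s ^ 3 * (C ^ 2 * L ^ 2) * N :=
      mul_le_mul_of_nonneg_right hBcard (by linarith)
    rw [← hs4] at g1 ⊢
    have g2 : s ^ 4 * s ^ 2 ≤ s ^ 7 * L ^ 2 := by
      have h1 : s ^ 4 * s ^ 2 = s ^ 6 := by ring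
      have h2 : s ^ 6 ≤ s ^ 7 := pow_le_pow_right₀ hs1 (by norm_num)
      have h3 : s ^ 7 * 1 ≤ s ^ 7 * L ^ 2 :=
        mul_le_mul_of_nonneg_left (by nlinarith) (by positivity)
      rw [h1]
      linarith
    have g3 : 2 * s ^ 3 * (C ^ 2 * L ^ 2) * s ^ 4 = 2 * C ^ 2 * s ^ 7 * L ^ 2 := by ring
    have g4 : (1 + 2 * C ^ 2) * s ^ 7 * L ^ 2 = s ^ 7 * L ^ 2 + 2 * C ^ 2 * s ^ 7 * L ^ 2 := by
      ring
    rw [g4, ← g3]
    linarith
  rw [hs7] at hfin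
  linarith

end Pool.Agent.H50.SMS
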