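import Pool.Agent.H33.SMS.Targets2

/-!
Row PRT of the board sms_modules: the two powerful parts.
-/

set_option autoImplicit false

namespace Pool.Agent.H50.SMS

open Pool.Agent.H33.SMS

theorem mem_of_dvd {T : Finset ℕ} {e : ℕ → ℕ} (hT : ∀ p ∈ T, p.Prime) {q : ℕ} (hq : q.Prime)
    (h : q ∣ ∏ p ∈ T, p ^ e p) : q ∈ T := by
  obtain ⟨p, hp, hqp⟩ := (hq.prime.dvd_finsetProd_iff _).1 h
  have h1 := (Nat.prime_dvd_prime_iff_eq hq (hT p hp)).1 (hq.dvd_of_dvd_pow hqp)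
  rw [h1]
  exact hp

theorem cop_prod {T U : Finset ℕ} {e : ℕ → ℕ} (hT : ∀ p ∈ T, p.Prime) (hU : ∀ p ∈ U, p.Prime)
    (h : Disjoint T U) : Nat.Coprime (∏ p ∈ T, p ^ e p) (∏ p ∈ U, p ^ e p) := by
  refine Nat.Coprime.prod_left fun p hp => Nat.Coprime.prod_right fun q hq => ?_
  refine Nat.Coprime.pow _ _ ((Nat.coprime_primes (hT p hp) (hU q hq)).2 ?_)
  rintro rfl
  exact (Finset.disjoint_left.1 h) hp hq

theorem prod_dvd {T : Finset ℕ} {e : ℕ → ℕ} {n : ℕ} (hT : ∀ p ∈ T, p.Prime)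
    (h : ∀ p ∈ T, p ^ e p ∣ n) : ∏ p ∈ T, p ^ e p ∣ n := by
  classical
  induction T using Finset.induction_on with
  | empty => simp
  | insert p T hpT ih =>
    rw [Finset.prod_insert hpT]
    refine Nat.Coprime.mul_dvd_of_dvd_of_dvd ?_ (h p (Finset.mem_insert_self _ _))
      (ih (fun q hq => hT q (Finset.mem_insert_of_mem hq))
        (fun q hq => h q (Finset.mem_insert_of_mem hq)))
    refine Nat.Coprime.prod_right fun q hq => ?_
    refine Nat.Coprime.pow _ _ ((Nat.coprime_primes (hT p (Finset.mem_insert_self _ _))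
      (hT q (Finset.mem_insert_of_mem hq))).2 ?_)
    rintro rfl
    exact hpT hq

theorem val_prod {T : Finset ℕ} {e : ℕ → ℕ} (hT : ∀ p ∈ T, p.Prime) {q : ℕ} (hq : q ∈ T) :
    padicValNat q (∏ p ∈ T, p ^ e p) = e q := by
  classical
  have : Fact q.Prime := ⟨hT q hq⟩
  have h0 : ∀ p ∈ T.erase q, p ^ e p ≠ 0 := fun p hp =>
    pow_ne_zero _ (hT p (Finset.mem_of_mem_erase hp)).ne_zero
  rw [← Finset.mul_prod_erase T (fun p => p ^ e p) hq,
    padicValNat.mul (pow_ne_zero _ (hT q hq).ne_zero) (Finset.prod_ne_zero_iff.2 h0),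
    padicValNat.prime_pow, padicValNat.eq_zero_of_not_dvd, add_zero]
  intro h
  have h1 := mem_of_dvd (fun p hp => hT p (Finset.mem_of_mem_erase hp)) (hT q hq) h
  exact (Finset.notMem_erase q T) h1

theorem pw_prod {T : Finset ℕ} {e : ℕ → ℕ} (hT : ∀ p ∈ T, p.Prime) (he : ∀ p ∈ T, 2 ≤ e p) :
    Pw (∏ p ∈ T, p ^ e p) := by
  constructor
  · exact Finset.prod_pos fun p hp => pow_pos (hT p hp).pos _
  · intro q hq h
    have h1 := mem_of_dvd hT hq h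
    exact (pow_dvd_pow q (he q h1)).trans (Finset.dvd_prod_of_mem (fun p => p ^ e p) h1)

theorem pf_PRT (hP : T_PTS) (hG : T_GRD) : T_PRT := by
  intro n N X hn hnN hX hXX hKK
  obtain ⟨S, e, r, hS, hprod⟩ := hP n hn
  have hf : ∀ p ∈ S, 1 ≤ p ^ e p ∧ ((p ^ e p : ℕ) : ℝ) ≤ N := by
    intro p hp
    obtain ⟨h1, -, -, -, -, h6⟩ := hS p hp
    refine ⟨pow_pos h1.pos _, ?_⟩
    exact_mod_cast h6.trans hnN
  have hX1 : X ≤ ∏ p ∈ S, ((p ^ e p : ℕ) : ℝ) := by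
    refine hKK.trans ?_
    have : (KK n : ℝ) ≤ ((∏ p ∈ S, p ^ e p : ℕ) : ℝ) := by exact_mod_cast hprod
    rw [Nat.cast_prod] at this
    exact this
  obtain ⟨S', hS', hX', hN'⟩ := hG S (fun p => p ^ e p) X N hX hXX hf hX1
  classical
  set S1 := S'.filter (fun p => r p = p * (e p - 1)) with hS1
  set S2 := S'.filter (fun p => ¬ r p = p * (e p - 1)) with hS2
  have hp1 : ∀ p ∈ S1, p.Prime := fun p hp =>
    (hS p (hS' (Finset.mem_filter.1 hp).1)).1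
  have hp2 : ∀ p ∈ S2, p.Prime := fun p hp =>
    (hS p (hS' (Finset.mem_filter.1 hp).1)).1
  have he1 : ∀ p ∈ S1, 2 ≤ e p := fun p hp =>
    (hS p (hS' (Finset.mem_filter.1 hp).1)).2.1
  have he2 : ∀ p ∈ S2, 2 ≤ e p := fun p hp =>
    (hS p (hS' (Finset.mem_filter.1 hp).1)).2.1
  have hdis : Disjoint S1 S2 := Finset.disjoint_filter_filter_not _ _ _
  have hmul : (∏ p ∈ S1, p ^ e p) * (∏ p ∈ S2, p ^ e p) = ∏ p ∈ S', p ^ e p :=
    Finset.prod_filter_mul_prod_filter_not _ _ _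
  refine ⟨∏ p ∈ S1, p ^ e p, ∏ p ∈ S2, p ^ e p, pw_prod hp1 he1, pw_prod hp2 he2,
    cop_prod hp1 hp2 hdis, ?_, ?_, ?_, ?_⟩
  · have : (((∏ p ∈ S1, p ^ e p) * (∏ p ∈ S2, p ^ e p) : ℕ) : ℝ) =
        ∏ p ∈ S', ((p ^ e p : ℕ) : ℝ) := by
      rw [hmul, Nat.cast_prod]
    rw [Nat.cast_mul] at this
    rw [this]
    exact hX'
  · have h1 : (((∏ p ∈ S1, p ^ e p) * (∏ p ∈ S2, p ^ e p) : ℕ) : ℝ) ≤ N := by
      rw [hmul, Nat.cast_prod]
      exact hN'
    exact_mod_cast h1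
  · refine prod_dvd hp2 ?_
    intro p hp
    have h1 := hS p (hS' (Finset.mem_filter.1 hp).1)
    have h2 := (Finset.mem_filter.1 hp).2
    have h3 : r p = 0 := by
      rcases h1.2.2.1 with h | h
      · exact h
      · exact absurd h h2
    have h4 := h1.2.2.2.2.1
    rw [h3, Nat.sub_zero] at h4
    exact h4
  · intro p hp hpd
    have h1 := mem_of_dvd hp1 hp hpd
    rw [val_prod hp1 h1]
    have h2 := hS p (hS' (Finset.mem_filter.1 h1).1)
    have h3 := (Finset.mem_filter.1 h1).2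
    rw [← h3]
    exact ⟨h2.2.2.2.1, h2.2.2.2.2.1⟩

end Pool.Agent.H50.SMS
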