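import Pool.Agent.H33.SMS.Targets2

/-!
Row PWS of the board sms_modules: a sum over the powerful numbers.
-/

set_option autoImplicit false

namespace Pool.Agent.H50.SMS

open Pool.Agent.H33.SMS

theorem sum32 (N : ℕ) (hN : 1 ≤ N) :
    ∑ b ∈ Finset.Icc 1 N, 1 / ((b : ℝ) * √(b : ℝ)) ≤ 3 - 2 / √(N : ℝ) := by
  induction N, hN using Nat.le_induction with
  | base => norm_num
  | succ N hN ih =>
    rw [Finset.sum_Icc_succ_top (by omega)]
    have hN1 : (1 : ℝ) ≤ N := by exact_mod_cast hN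
    have hx : 0 < √(N : ℝ) := Real.sqrt_pos.2 (by linarith)
    push_cast
    have hy : 0 < √((N : ℝ) + 1) := Real.sqrt_pos.2 (by linarith)
    have hx2 := Real.mul_self_sqrt (show (0 : ℝ) ≤ N by linarith)
    have hy2 := Real.mul_self_sqrt (show (0 : ℝ) ≤ (N : ℝ) + 1 by linarith)
    set x := √(N : ℝ) with hxd
    set y := √((N : ℝ) + 1) with hyd
    have hxy : x ≤ y := Real.sqrt_le_sqrt (by linarith)
    have key : 1 / (((N : ℝ) + 1) * y) ≤ 2 / x - 2 / y := by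
      rw [← hy2]
      have h1 : 2 / x - 2 / y = 2 * (y - x) / (x * y) := by
        field_simp
      rw [h1, div_le_div_iff₀ (by positivity) (by positivity)]
      -- x * y ≤ 2 (y - x) (y * y * y)
      have h2 : (y - x) * (y + x) = 1 := by nlinarith
      have h3 : 0 ≤ y - x := by linarith
      have h4 : 1 ≤ 2 * (y - x) * y := by nlinarith
      have h5 : x * y ≤ y * y := mul_le_mul_of_nonneg_right hxy hy.le
      nlinarith [mul_pos hy hy]
    linarith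

theorem sum1 (N : ℕ) : ∑ a ∈ Finset.Icc 1 N, 1 / (a : ℝ) ≤ 1 + Real.log N := by
  have h := harmonic_le_one_add_log N
  rw [harmonic_eq_sum_Icc] at h
  push_cast at h
  simpa [one_div] using h

theorem pf_PWS (h : T_PWR) : T_PWS := by
  refine ⟨3, by norm_num, ?_⟩
  intro N hN
  classical
  set P : Finset (ℕ × ℕ) := Finset.Icc 1 N ×ˢ Finset.Icc 1 N with hP
  set φ : ℕ × ℕ → ℕ := fun p => p.1 ^ 2 * p.2 ^ 3 with hφ
  set g : ℕ → ℝ := fun M => 1 / √(M : ℝ) with hg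
  have hg0 : ∀ M, 0 ≤ g M := fun M => by rw [hg]; positivity
  have hsub : (Finset.Icc 1 N).filter Pw ⊆ P.image φ := by
    intro M hM
    rw [Finset.mem_filter, Finset.mem_Icc] at hM
    obtain ⟨a, b, ha, hb, hab⟩ := h M hM.2
    rw [Finset.mem_image]
    refine ⟨(a, b), ?_, hab.symm⟩
    rw [hP, Finset.mem_product, Finset.mem_Icc, Finset.mem_Icc]
    have h1 : a ≤ M := by
      rw [hab]
      calc a ≤ a ^ 2 := Nat.le_self_pow (by norm_num) a
        _ ≤ a ^ 2 * b ^ 3 := Nat.le_mul_of_pos_right _ (pow_pos hb 3)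
    have h2 : b ≤ M := by
      rw [hab]
      calc b ≤ b ^ 3 := Nat.le_self_pow (by norm_num) b
        _ ≤ a ^ 2 * b ^ 3 := Nat.le_mul_of_pos_left _ (pow_pos ha 2)
    exact ⟨⟨ha, h1.trans hM.1.2⟩, hb, h2.trans hM.1.2⟩
  have h1 : ∑ M ∈ (Finset.Icc 1 N).filter Pw, g M ≤ ∑ M ∈ P.image φ, g M :=
    Finset.sum_le_sum_of_subset_of_nonneg hsub fun M _ _ => hg0 M
  have h2 : ∑ M ∈ P.image φ, g M ≤ ∑ p ∈ P, g (φ p) := by
    rw [Finset.sum_comp g φ]
    refine Finset.sum_le_sum fun M hM => ?_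
    obtain ⟨p, hp, hpM⟩ := Finset.mem_image.1 hM
    have h3 : 1 ≤ (P.filter fun a => φ a = M).card :=
      Finset.card_pos.2 ⟨p, Finset.mem_filter.2 ⟨hp, hpM⟩⟩
    rw [nsmul_eq_mul]
    have h4 : (1 : ℝ) ≤ ((P.filter fun a => φ a = M).card : ℝ) := by exact_mod_cast h3
    have h5 := hg0 M
    nlinarith
  have h3 : ∑ p ∈ P, g (φ p) =
      (∑ a ∈ Finset.Icc 1 N, 1 / (a : ℝ)) * ∑ b ∈ Finset.Icc 1 N, 1 / ((b : ℝ) * √(b : ℝ)) := by
    rw [Finset.sum_mul_sum, hP, Finset.sum_product]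
    refine Finset.sum_congr rfl fun a ha => Finset.sum_congr rfl fun b hb => ?_
    rw [hg, hφ]
    simp only []
    rw [Finset.mem_Icc] at ha hb
    have ha1 : (0 : ℝ) < a := by exact_mod_cast ha.1
    have hb1 : (0 : ℝ) < b := by exact_mod_cast hb.1
    have h4 : √(((a ^ 2 * b ^ 3 : ℕ) : ℝ)) = (a : ℝ) * ((b : ℝ) * √(b : ℝ)) := by
      push_cast
      have h5 : (a : ℝ) ^ 2 * (b : ℝ) ^ 3 = ((a : ℝ) * b) ^ 2 * b := by ring
      rw [h5, Real.sqrt_mul (by positivity), Real.sqrt_sq (by positivity)]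
      ring
    rw [h4]
    field_simp
  have h4 := sum1 N
  have h5 := sum32 N hN
  have h6 : ∑ b ∈ Finset.Icc 1 N, 1 / ((b : ℝ) * √(b : ℝ)) ≤ 3 := by
    have : 0 ≤ 2 / √(N : ℝ) := by positivity
    linarith
  have h7 : 0 ≤ ∑ b ∈ Finset.Icc 1 N, 1 / ((b : ℝ) * √(b : ℝ)) :=
    Finset.sum_nonneg fun b _ => by positivity
  have h8 : 0 ≤ 1 + Real.log N := by
    have : 0 ≤ Real.log N := Real.log_natCast_nonneg N
    linarith
  calc ∑ M ∈ (Finset.Icc 1 N).filter Pw, 1 / √(M : ℝ) ≤ ∑ p ∈ P, g (φ p) := h1.trans h2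
    _ = (∑ a ∈ Finset.Icc 1 N, 1 / (a : ℝ)) *
        ∑ b ∈ Finset.Icc 1 N, 1 / ((b : ℝ) * √(b : ℝ)) := h3
    _ ≤ (1 + Real.log N) * 3 := mul_le_mul h4 h6 h7 h8
    _ = 3 * (1 + Real.log N) := mul_comm _ _

end Pool.Agent.H50.SMS
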